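import Pool.Agent.L5helper60.DN2.Low

/-!
# The mean of the weights for two disjoint dense sets
-/

set_option autoImplicit false
set_option linter.unusedSectionVars false

open Finset

namespace Pool.Agent.L5helper60.DN2

open Pool.Agent.L5helper60.DN Pool.Agent.L5helper18.DD

section mean

variable {m : ℕ} {X : Type} [Fintype X] [DecidableEq X]

/-- four places are split by `A` and `B` -/
def Gd42 (A B : Finset X) (κ : Bool × Bool → X) : Prop :=
  ((∀ ρ, κ (false, ρ) ∈ A) ∧ ∀ ρ, κ (true, ρ) ∈ B) ∨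
    ((∀ ρ, κ (false, ρ) ∈ B) ∧ ∀ ρ, κ (true, ρ) ∈ A)

/-- the indicator functions of the pattern -/
def pt2 (A B : Finset X) (b : Bool) (s : Bool × Bool) (x : X) : ℝ :=
  if s.1 = b then (if x ∈ A then 1 else 0) else (if x ∈ B then 1 else 0)

open Classical in
theorem w42_eq (A B : Finset X) (hd : Disjoint A B) (κ : Bool × Bool → X) :
    (if Gd42 A B κ then (5 / 7 : ℝ) else 1) =
      1 - 2 / 7 * (∏ s, pt2 A B false s (κ s) + ∏ s, pt2 A B true s (κ s)) := by
  have h : ∀ b : Bool, ∏ s, pt2 A B b s (κ s) =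
      pt2 A B b (true, true) (κ (true, true)) * pt2 A B b (true, false) (κ (true, false)) *
        (pt2 A B b (false, true) (κ (false, true)) *
          pt2 A B b (false, false) (κ (false, false))) := by
    intro b
    rw [Fintype.prod_prod_type]
    simp only [Fintype.prod_bool]
  rw [h, h]
  have hAB : ∀ x, x ∈ A → x ∈ B → False := fun x h1 h2 => disjoint_left.1 hd h1 h2
  unfold Gd42 pt2
  simp only [Bool.forall_bool]
  have c1 := hAB (κ (true, true))
  have c2 := hAB (κ (true, false))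
  have c3 := hAB (κ (false, true))
  have c4 := hAB (κ (false, false))
  by_cases h1 : κ (true, true) ∈ A <;> by_cases h1' : κ (true, true) ∈ B <;>
    by_cases h2 : κ (true, false) ∈ A <;> by_cases h2' : κ (true, false) ∈ B <;>
    by_cases h3 : κ (false, true) ∈ A <;> by_cases h3' : κ (false, true) ∈ B <;>
    by_cases h4 : κ (false, false) ∈ A <;> by_cases h4' : κ (false, false) ∈ B <;>
    first
    | exact (c1 h1 h1').elim
    | exact (c2 h2 h2').elim
    | exact (c3 h3 h3').elim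
    | exact (c4 h4 h4').elim
    | (simp [h1, h1', h2, h2', h3, h3', h4, h4'] <;> norm_num)

theorem sum_pt2 (A B : Finset X) (b : Bool) :
    ∑ κ : Bool × Bool → X, ∏ s, pt2 A B b s (κ s) = (A.card : ℝ) ^ 2 * (B.card : ℝ) ^ 2 := by
  rw [sum_prod_pi (fun s x => pt2 A B b s x), Fintype.prod_prod_type]
  have h1 : ∀ A : Finset X, ∑ x, (if x ∈ A then (1 : ℝ) else 0) = A.card := by
    intro A
    rw [Finset.sum_ite_mem, Finset.univ_inter, Finset.sum_const, nsmul_eq_mul, mul_one]
  have h4 : ∀ c ρ : Bool, ∑ x, pt2 A B b (c, ρ) x =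
      if c = b then (A.card : ℝ) else (B.card : ℝ) := by
    intro c ρ
    unfold pt2
    by_cases hc : c = b
    · simp only [if_pos hc]
      exact h1 A
    · simp only [if_neg hc]
      exact h1 B
  simp only [Fintype.prod_bool, h4]
  cases b
  · simp
    ring
  · simp
    ring

theorem sum_w42 (r : ℕ) (hr : 0 < r) (A B : Finset X) (h1 : Fintype.card X ≤ r * A.card)
    (h2 : Fintype.card X ≤ r * B.card) :
    ∑ κ : Bool × Bool → X,
      (1 - 2 / 7 * (∏ s, pt2 A B false s (κ s) + ∏ s, pt2 A B true s (κ s))) ≤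
      (1 - 4 / (7 * (r : ℝ) ^ 4)) * (Fintype.card X : ℝ) ^ 4 := by
  rw [Finset.sum_sub_distrib, ← Finset.mul_sum, Finset.sum_add_distrib, sum_pt2, sum_pt2,
    Finset.sum_const, card_univ, Fintype.card_fun]
  have hc : Fintype.card (Bool × Bool) = 4 := rfl
  rw [hc]
  have hr' : (0 : ℝ) < r := by exact_mod_cast hr
  have h3 : (Fintype.card X : ℝ) ≤ r * A.card := by exact_mod_cast h1
  have h4 : (Fintype.card X : ℝ) ≤ r * B.card := by exact_mod_cast h2
  have h8 : ((Fintype.card X ^ 4 : ℕ) : ℝ) = (Fintype.card X : ℝ) ^ 4 := by push_cast; rfl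
  rw [nsmul_eq_mul, mul_one, h8]
  have hn0 : (0 : ℝ) ≤ Fintype.card X := by positivity
  have ha0 : (0 : ℝ) ≤ A.card := by positivity
  have hb0 : (0 : ℝ) ≤ B.card := by positivity
  generalize (A.card : ℝ) = a at *
  generalize (B.card : ℝ) = b at *
  generalize (Fintype.card X : ℝ) = n at *
  have h5 : n / r ≤ a := by rw [div_le_iff₀ hr']; linarith
  have h6 : n / r ≤ b := by rw [div_le_iff₀ hr']; linarith
  have h7 : (n / r) ^ 2 ≤ a ^ 2 := pow_le_pow_left₀ (by positivity) h5 2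
  have h9 : (n / r) ^ 2 ≤ b ^ 2 := pow_le_pow_left₀ (by positivity) h6 2
  have h10 : (n / r) ^ 2 * (n / r) ^ 2 ≤ a ^ 2 * b ^ 2 :=
    mul_le_mul h7 h9 (by positivity) (by positivity)
  have h11 : (1 - 4 / (7 * (r : ℝ) ^ 4)) * n ^ 4 = n ^ 4 - 4 / 7 * ((n / r) ^ 2 * (n / r) ^ 2) := by
    field_simp
  rw [h11]
  linarith

open Classical in
theorem sum_wt2 (r : ℕ) (hr : 0 < r) (A B : Finset X) (hd : Disjoint A B)
    (h1 : Fintype.card X ≤ r * A.card) (h2 : Fintype.card X ≤ r * B.card) :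
    ∑ τ : Sl m → X, wt2 A B τ ≤
      (1 - 4 / (7 * (r : ℝ) ^ 4)) ^ m * (Fintype.card (Sl m → X) : ℝ) := by
  let e : (Sl m → X) ≃ (Fin m → (Bool × Bool → X)) × (Bool → X) :=
    { toFun := fun τ => (fun l s => τ (.inl (l, s)), fun ρ => τ (.inr ρ))
      invFun := fun p => Sum.elim (fun q => p.1 q.1 q.2) p.2
      left_inv := fun τ => by
        funext σ
        rcases σ with ⟨l, s⟩ | ρ <;> rfl
      right_inv := fun p => by rfl }
  have h3 : ∑ τ : Sl m → X, wt2 A B τ = ∑ p : (Fin m → (Bool × Bool → X)) × (Bool → X),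
      ∏ l, (1 - 2 / 7 * (∏ s, pt2 A B false s (p.1 l s) + ∏ s, pt2 A B true s (p.1 l s))) := by
    refine Fintype.sum_equiv e _ _ fun τ => ?_
    unfold wt2
    refine Finset.prod_congr rfl fun l _ => ?_
    rw [← w42_eq A B hd]
    rfl
  have h4 : (Fintype.card (Sl m → X) : ℝ) = (Fintype.card X : ℝ) ^ 2 *
      ((Fintype.card X : ℝ) ^ 4) ^ m := by
    rw [Fintype.card_fun, card_Sl]
    push_cast
    rw [← pow_mul, ← pow_add]
    congr 1
    ring
  rw [h3, Fintype.sum_prod_type_right]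
  simp only
  rw [Finset.sum_const, card_univ, Fintype.card_fun, Fintype.card_bool,
    sum_prod_pi (fun _ (k : Bool × Bool → X) =>
      1 - 2 / 7 * (∏ s, pt2 A B false s (k s) + ∏ s, pt2 A B true s (k s))),
    Finset.prod_const, card_univ, Fintype.card_fin, h4]
  have h5 : (∑ k : Bool × Bool → X,
      (1 - 2 / 7 * (∏ s, pt2 A B false s (k s) + ∏ s, pt2 A B true s (k s)))) ^ m ≤
      ((1 - 4 / (7 * (r : ℝ) ^ 4)) * (Fintype.card X : ℝ) ^ 4) ^ m := by
    refine pow_le_pow_left₀ ?_ (sum_w42 r hr A B h1 h2) m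
    refine Finset.sum_nonneg fun κ _ => ?_
    rw [← w42_eq A B hd]
    split_ifs <;> norm_num
  rw [mul_pow] at h5
  rw [nsmul_eq_mul]
  push_cast
  calc (Fintype.card X : ℝ) ^ 2 * _ ≤ (Fintype.card X : ℝ) ^ 2 *
        ((1 - 4 / (7 * (r : ℝ) ^ 4)) ^ m * ((Fintype.card X : ℝ) ^ 4) ^ m) :=
        mul_le_mul_of_nonneg_left h5 (by positivity)
    _ = _ := by ring

end mean

end Pool.Agent.L5helper60.DN2
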