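import Pool.Agent.L5helper60.DN2.Des

/-!
# Existence of a design which is good for all pairs of disjoint dense sets
-/

set_option autoImplicit false
set_option linter.unusedSectionVars false

open Finset

namespace Pool.Agent.L5helper60.DN2

open Pool.Agent.L5helper60.DN Pool.Agent.L5helper18.DD

/-- **Existence of a design** with `P` tuples at each leaf: there are many choices without overlap, and
the weights are small for every pair of disjoint sets of density at least `1 / r`. -/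
theorem exists_design2 (r m C1 P : ℕ) (hr : 0 < r)
    (hm : (1 - 4 / (7 * (r : ℝ) ^ 4)) ^ m ≤ 1 / 64)
    (hC : 2 * (4 * m + 2) ^ 2 ≤ C1) (hP : (C1 + 4) ^ 2 * 64 ^ (C1 + 4) ≤ P)
    (L : Type) [Fintype L] [DecidableEq L] [Nonempty L] :
    ∃ T : L → Fin P → Sl m → (L × Fin C1),
      ((P : ℝ) / 4) ^ Fintype.card L ≤ (nInj T : ℝ) ∧
      ∀ A B : Finset (L × Fin C1), Disjoint A B →
        Fintype.card (L × Fin C1) ≤ r * A.card → Fintype.card (L × Fin C1) ≤ r * B.card →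
        ∏ i, ∑ q, wt2 A B (T i q) ≤ ((P : ℝ) / 16) ^ Fintype.card L := by
  classical
  by_contra hcon
  push Not at hcon
  set n0 := Fintype.card L with hn0
  have hn0' : 1 ≤ n0 := Fintype.card_pos
  have hC0 : 0 < C1 := by
    have : 0 < (4 * m + 2) ^ 2 := by positivity
    omega
  have : Nonempty (Fin C1) := ⟨⟨0, hC0⟩⟩
  have hP0 : 0 < P := by
    have : 0 < (C1 + 4) ^ 2 * 64 ^ (C1 + 4) := by positivity
    omega
  have hP0' : (0 : ℝ) < P := by exact_mod_cast hP0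
  set k := C1 + 4 with hk
  set Bal : Finset (Finset (L × Fin C1) × Finset (L × Fin C1)) := univ.filter fun A =>
    Disjoint A.1 A.2 ∧ Fintype.card (L × Fin C1) ≤ r * A.1.card ∧
      Fintype.card (L × Fin C1) ≤ r * A.2.card with hBal
  set R : ℝ := (((P : ℝ) / 16) ^ n0) ^ k with hR
  have hR0 : 0 < R := by positivity
  have hW0 : ∀ (D : L → Fin P → Sl m → (L × Fin C1))
      (A : Finset (L × Fin C1) × Finset (L × Fin C1)),
      0 ≤ ∏ i, ∑ q, wt2 A.1 A.2 (D i q) := fun D A =>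
    Finset.prod_nonneg fun i _ => Finset.sum_nonneg fun q _ => wt2_nonneg _ _ _
  -- the pointwise bound
  have hpt : ∀ D : L → Fin P → Sl m → (L × Fin C1), R * (nInj D : ℝ) ≤
      R * ((P : ℝ) / 4) ^ n0 + (P : ℝ) ^ n0 * ∑ A ∈ Bal, (∏ i, ∑ q, wt2 A.1 A.2 (D i q)) ^ k := by
    intro D
    have hsum0 : 0 ≤ ∑ A ∈ Bal, (∏ i, ∑ q, wt2 A.1 A.2 (D i q)) ^ k :=
      Finset.sum_nonneg fun A _ => pow_nonneg (hW0 D A) k
    by_cases h1 : ((P : ℝ) / 4) ^ n0 ≤ (nInj D : ℝ)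
    · obtain ⟨A, B, a0, a1, a2, a3⟩ := hcon D h1
      have h2 : (nInj D : ℝ) ≤ (P : ℝ) ^ n0 := by
        have := nInj_le D
        rwa [Fintype.card_fin] at this
      have h3 : R ≤ ∑ A ∈ Bal, (∏ i, ∑ q, wt2 A.1 A.2 (D i q)) ^ k := by
        refine le_trans ?_ (Finset.single_le_sum
          (f := fun A : Finset (L × Fin C1) × Finset (L × Fin C1) =>
            (∏ i, ∑ q, wt2 A.1 A.2 (D i q)) ^ k)
          (fun A _ => pow_nonneg (hW0 D A) k) (mem_filter.2 ⟨mem_univ (A, B), a0, a1, a2⟩))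
        exact pow_le_pow_left₀ (by positivity) a3.le k
      have h4 : R * (nInj D : ℝ) ≤
          (P : ℝ) ^ n0 * ∑ A ∈ Bal, (∏ i, ∑ q, wt2 A.1 A.2 (D i q)) ^ k := by
        rw [mul_comm]
        exact mul_le_mul h2 h3 hR0.le (by positivity)
      have h5 : 0 ≤ R * ((P : ℝ) / 4) ^ n0 := by positivity
      linarith
    · push Not at h1
      have h4 : R * (nInj D : ℝ) ≤ R * ((P : ℝ) / 4) ^ n0 :=
        mul_le_mul_of_nonneg_left h1.le hR0.le
      have h5 : 0 ≤ (P : ℝ) ^ n0 * ∑ A ∈ Bal, (∏ i, ∑ q, wt2 A.1 A.2 (D i q)) ^ k :=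
        mul_nonneg (by positivity) hsum0
      linarith
  -- the moments
  set N : ℝ := (Fintype.card (L → Fin P → Sl m → L × Fin C1) : ℝ) with hN
  have hN0 : 0 < N := by
    rw [hN]
    exact_mod_cast Fintype.card_pos
  have hmom : ∀ A ∈ Bal, ∑ D : L → Fin P → Sl m → (L × Fin C1),
      (∏ i, ∑ q, wt2 A.1 A.2 (D i q)) ^ k ≤ N * ((P : ℝ) ^ k * (2 * (1 / 64) ^ k)) ^ n0 := by
    intro A hA
    obtain ⟨-, a0, a1, a2⟩ := mem_filter.1 hA
    have h1 : ∀ D : L → Fin P → Sl m → (L × Fin C1), (∏ i, ∑ q, wt2 A.1 A.2 (D i q)) ^ k =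
        ∏ i, (∑ q, wt2 A.1 A.2 (D i q)) ^ k := fun D => (Finset.prod_pow _ _ _).symm
    rw [Finset.sum_congr rfl fun D _ => h1 D,
      sum_prod_pi (fun _ (E : Fin P → Sl m → (L × Fin C1)) => (∑ q, wt2 A.1 A.2 (E q)) ^ k),
      Finset.prod_const, card_univ]
    have h2 : (∑ τ : Sl m → (L × Fin C1), wt2 A.1 A.2 τ) /
        Fintype.card (Sl m → (L × Fin C1)) ≤ 1 / 64 := by
      have hpos : (0 : ℝ) < Fintype.card (Sl m → (L × Fin C1)) := by
        exact_mod_cast Fintype.card_pos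
      rw [div_le_iff₀ hpos]
      exact (sum_wt2 r hr A.1 A.2 a0 a1 a2).trans (mul_le_mul_of_nonneg_right hm hpos.le)
    have h3 := moment' (Q := Fin P) (fun τ : Sl m → (L × Fin C1) => wt2 A.1 A.2 τ)
      (wt2_nonneg A.1 A.2) (wt2_le_one A.1 A.2) k h2 (by rw [Fintype.card_fin]; exact hP)
      (by omega)
    rw [Fintype.card_fin] at h3
    have h4 : N = ((Fintype.card (Sl m → L × Fin C1) : ℝ) ^ P) ^ n0 := by
      rw [hN, Fintype.card_fun, Fintype.card_fun, Fintype.card_fin]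
      push_cast
      rfl
    rw [h4, ← mul_pow]
    exact pow_le_pow_left₀ (Finset.sum_nonneg fun D _ => pow_nonneg
      (Finset.sum_nonneg fun q _ => wt2_nonneg _ _ _) k) h3 n0
  have hBalc : (Bal.card : ℝ) ≤ ((4 : ℝ) ^ C1) ^ n0 := by
    have h1 : Bal.card ≤ 2 ^ (n0 * C1) * 2 ^ (n0 * C1) := by
      refine (card_filter_le _ _).trans ?_
      rw [card_univ, Fintype.card_prod, Fintype.card_finset, Fintype.card_prod, Fintype.card_fin]
    have h2 : (Bal.card : ℝ) ≤ ((2 ^ (n0 * C1) * 2 ^ (n0 * C1) : ℕ) : ℝ) := by exact_mod_cast h1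
    refine h2.trans (le_of_eq ?_)
    push_cast
    rw [← pow_mul, mul_comm C1 n0, ← mul_pow]
    norm_num
  have hfac : (4 : ℝ) ^ C1 * ((P : ℝ) ^ k * (2 * (1 / 64) ^ k)) ≤ ((P : ℝ) / 16) ^ k * (1 / 8) := by
    have e1 : ((P : ℝ) / 16) ^ k = (P : ℝ) ^ k * (1 / 16) ^ k := by rw [← mul_pow]; congr 1; ring
    have e2 : (1 / 64 : ℝ) ^ k = (1 / 16) ^ k * (1 / 4) ^ k := by rw [← mul_pow]; norm_num
    have e3 : (4 : ℝ) ^ C1 * (2 * (1 / 4) ^ k) ≤ 1 / 8 := by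
      have e4 : (1 / 4 : ℝ) ^ k = (1 / 4) ^ C1 * (1 / 4) ^ 4 := by rw [hk, pow_add]
      have e5 : (4 : ℝ) ^ C1 * (1 / 4) ^ C1 ≤ 1 := by
        rw [← mul_pow]
        exact pow_le_one₀ (by norm_num) (by norm_num)
      rw [e4]
      nlinarith
    rw [e1, e2]
    have e6 : (0 : ℝ) ≤ (P : ℝ) ^ k * (1 / 16) ^ k := by positivity
    calc (4 : ℝ) ^ C1 * ((P : ℝ) ^ k * (2 * ((1 / 16) ^ k * (1 / 4) ^ k)))
        = ((P : ℝ) ^ k * (1 / 16) ^ k) * ((4 : ℝ) ^ C1 * (2 * (1 / 4) ^ k)) := by ring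
      _ ≤ ((P : ℝ) ^ k * (1 / 16) ^ k) * (1 / 8) := mul_le_mul_of_nonneg_left e3 e6
  have hsum : ∑ D : L → Fin P → Sl m → (L × Fin C1),
      ∑ A ∈ Bal, (∏ i, ∑ q, wt2 A.1 A.2 (D i q)) ^ k ≤ N * (R * (1 / 8) ^ n0) := by
    rw [Finset.sum_comm]
    calc ∑ A ∈ Bal, ∑ D : L → Fin P → Sl m → (L × Fin C1), (∏ i, ∑ q, wt2 A.1 A.2 (D i q)) ^ k
        ≤ ∑ _A ∈ Bal, N * ((P : ℝ) ^ k * (2 * (1 / 64) ^ k)) ^ n0 :=
          Finset.sum_le_sum hmom
      _ = (Bal.card : ℝ) * (N * ((P : ℝ) ^ k * (2 * (1 / 64) ^ k)) ^ n0) := by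
          rw [Finset.sum_const, nsmul_eq_mul]
      _ ≤ ((4 : ℝ) ^ C1) ^ n0 * (N * ((P : ℝ) ^ k * (2 * (1 / 64) ^ k)) ^ n0) :=
          mul_le_mul_of_nonneg_right hBalc (by positivity)
      _ = N * ((4 : ℝ) ^ C1 * ((P : ℝ) ^ k * (2 * (1 / 64) ^ k))) ^ n0 := by
          rw [mul_pow ((4 : ℝ) ^ C1)]
          ring
      _ ≤ N * (((P : ℝ) / 16) ^ k * (1 / 8)) ^ n0 :=
          mul_le_mul_of_nonneg_left (pow_le_pow_left₀ (by positivity) hfac n0) hN0.le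
      _ = N * (R * (1 / 8) ^ n0) := by
          rw [mul_pow, hR, ← pow_mul, ← pow_mul, mul_comm k n0]
  -- the mean number of choices without overlap
  have hmean : (P : ℝ) ^ n0 * (N * (1 / 2) ^ n0) ≤
      ∑ D : L → Fin P → Sl m → (L × Fin C1), (nInj D : ℝ) := by
    have h1 := sum_nInj (m := m) (L := L) (Q := Fin P) (X := L × Fin C1)
    have h2 := inj_ratio (L := L) m C1 hC
    rw [Fintype.card_fin] at h1
    have h3 : (0 : ℝ) < Fintype.card (L → Sl m → L × Fin C1) := by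
      exact_mod_cast Fintype.card_pos
    have h4 : (Fintype.card (L → Sl m → L × Fin C1) : ℝ) * ((P : ℝ) ^ n0 * (N * (1 / 2) ^ n0)) ≤
        (Fintype.card (L → Sl m → L × Fin C1) : ℝ) *
          ∑ D : L → Fin P → Sl m → (L × Fin C1), (nInj D : ℝ) := by
      rw [h1]
      calc (Fintype.card (L → Sl m → L × Fin C1) : ℝ) * ((P : ℝ) ^ n0 * (N * (1 / 2) ^ n0))
          = (P : ℝ) ^ n0 * (N * ((1 / 2) ^ n0 *
            (Fintype.card (L → Sl m → L × Fin C1) : ℝ))) := by ring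
        _ ≤ (P : ℝ) ^ n0 * (N * (nInjF (L × Sl m) (L × Fin C1) : ℝ)) :=
            mul_le_mul_of_nonneg_left (mul_le_mul_of_nonneg_left h2 hN0.le) (by positivity)
    exact le_of_mul_le_mul_left h4 h3
  -- summation
  have htot : R * ∑ D : L → Fin P → Sl m → (L × Fin C1), (nInj D : ℝ) ≤
      N * (R * ((P : ℝ) / 4) ^ n0) + (P : ℝ) ^ n0 * (N * (R * (1 / 8) ^ n0)) := by
    calc R * ∑ D : L → Fin P → Sl m → (L × Fin C1), (nInj D : ℝ)
        = ∑ D : L → Fin P → Sl m → (L × Fin C1), R * (nInj D : ℝ) := by rw [Finset.mul_sum]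
      _ ≤ ∑ D : L → Fin P → Sl m → (L × Fin C1), (R * ((P : ℝ) / 4) ^ n0 +
          (P : ℝ) ^ n0 * ∑ A ∈ Bal, (∏ i, ∑ q, wt2 A.1 A.2 (D i q)) ^ k) :=
          Finset.sum_le_sum fun D _ => hpt D
      _ = N * (R * ((P : ℝ) / 4) ^ n0) + (P : ℝ) ^ n0 *
          ∑ D : L → Fin P → Sl m → (L × Fin C1),
            ∑ A ∈ Bal, (∏ i, ∑ q, wt2 A.1 A.2 (D i q)) ^ k := by
          rw [Finset.sum_add_distrib, Finset.sum_const, card_univ, nsmul_eq_mul,
            ← Finset.mul_sum]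
      _ ≤ _ := by
          have := mul_le_mul_of_nonneg_left hsum (by positivity : (0 : ℝ) ≤ (P : ℝ) ^ n0)
          linarith
  have h1 : R * ((P : ℝ) ^ n0 * (N * (1 / 2) ^ n0)) ≤
      N * (R * ((P : ℝ) / 4) ^ n0) + (P : ℝ) ^ n0 * (N * (R * (1 / 8) ^ n0)) :=
    (mul_le_mul_of_nonneg_left hmean hR0.le).trans htot
  have h2 : ((P : ℝ) / 4) ^ n0 = (P : ℝ) ^ n0 * (1 / 4) ^ n0 := by
    rw [← mul_pow]; congr 1; ring
  rw [h2] at h1
  have h3 : R * (P : ℝ) ^ n0 * N * (1 / 2) ^ n0 ≤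
      R * (P : ℝ) ^ n0 * N * ((1 / 4) ^ n0 + (1 / 8) ^ n0) := by linarith
  have h4 : (0 : ℝ) < R * (P : ℝ) ^ n0 * N := by positivity
  have h5 := le_of_mul_le_mul_left h3 h4
  exact absurd (half_pow n0 hn0') (not_lt.2 h5)

/-- **The lower bound for a good design**: a function which is the indicator function of `FF` (or of its
negation) and a sum of products of nonnegative functions, the first of which does not see `B e` and the
second of which does not see `A e`, where `A e` and `B e` are disjoint and contain a proportion of at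
least `1 / r` of the elements of the first kind, has at least `2 ^ 4 ^ j` summands. -/
theorem rects_ge (r m C1 P : ℕ) (hr : 0 < r) (hm : (1 - 4 / (7 * (r : ℝ) ^ 4)) ^ m ≤ 1 / 64)
    (hC : 2 * (4 * m + 2) ^ 2 ≤ C1) (hP : (C1 + 4) ^ 2 * 64 ^ (C1 + 4) ≤ P) (j : ℕ) :
    ∃ T : Lf j → Fin P → Sl m → (Lf j × Fin C1),
      ∀ (E : Type) [Fintype E] (A B : E → Finset ((Lf j × Fin C1) ⊕ Lf j × Fin P))
        (g h : E → Finset ((Lf j × Fin C1) ⊕ Lf j × Fin P) → ℝ)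
        (f : Finset ((Lf j × Fin C1) ⊕ Lf j × Fin P) → ℝ),
        (∀ e, Disjoint (A e) (B e)) →
        (∀ e, Fintype.card (Lf j × Fin C1) ≤ r * (pX (A e)).card) →
        (∀ e, Fintype.card (Lf j × Fin C1) ≤ r * (pX (B e)).card) →
        (∀ e S, 0 ≤ g e S) → (∀ e S, 0 ≤ h e S) → (∀ e, IndepOf (g e) (B e)) →
        (∀ e, IndepOf (h e) (A e)) → (∀ S, f S = ∑ e, g e S * h e S) →
        ((∀ S, f S = ind (FF j T S)) ∨ (∀ S, f S = ind (¬ FF j T S))) →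
          2 ^ 4 ^ j ≤ Fintype.card E := by
  obtain ⟨T, hT1, hT2⟩ := exists_design2 r m C1 P hr hm hC hP (Lf j)
  refine ⟨T, fun E _ A B g h f hd hA hB hg hh hgB hhA hs hf => ?_⟩
  have hP0 : 0 < P := by
    have : 0 < (C1 + 4) ^ 2 * 64 ^ (C1 + 4) := by positivity
    omega
  have hP0' : (0 : ℝ) < P := by exact_mod_cast hP0
  have hle : ∀ p : Prop, ind p ≤ 1 := by
    intro p
    unfold ind
    split_ifs <;> norm_num
  have hM : ∀ e, ∏ i, ∑ q, wt2 (pX (A e)) (pX (B e)) (T i q) ≤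
      ((P : ℝ) / 16) ^ Fintype.card (Lf j) := by
    intro e
    refine hT2 (pX (A e)) (pX (B e)) ?_ (hA e) (hB e)
    rw [disjoint_left]
    intro x h1 h2
    exact disjoint_left.1 (hd e) (mem_pX.1 h1) (mem_pX.1 h2)
  have hf1 : ∀ S, f S ≤ 1 := by
    intro S
    rcases hf with hf | hf
    · rw [hf S]; exact hle _
    · rw [hf S]; exact hle _
  have hlam : ∀ c, Inj T c → |lam T c f| = 4 ^ Fintype.card (Lf j × Fin m) := by
    intro c hc
    rcases hf with hf | hf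
    · have e1 : f = fun S => ind (FF j T S) := funext hf
      rw [e1]
      exact lam_FF j T c hc
    · have e1 : f = fun S => ind (¬ FF j T S) := funext hf
      rw [e1]
      exact lam_not j T c hc
  have h1 : (nInj T : ℝ) ≤ 2 ^ Fintype.card (Lf j) *
      (Fintype.card E * ((P : ℝ) / 16) ^ Fintype.card (Lf j)) :=
    count2 T (((P : ℝ) / 16) ^ Fintype.card (Lf j)) A B hd g h hg hh hgB hhA hM f hf1 hs hlam
  have h2 := hT1.trans h1
  rw [card_Lf] at h2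
  have h3 : ((P : ℝ) / 4) ^ 4 ^ j = ((P : ℝ) / 16) ^ 4 ^ j * (2 ^ 4 ^ j * 2 ^ 4 ^ j) := by
    rw [← mul_pow, ← mul_pow]
    congr 1
    ring
  rw [h3] at h2
  have h5 : (0 : ℝ) < ((P : ℝ) / 16) ^ 4 ^ j := by positivity
  have h6 : (0 : ℝ) < 2 ^ 4 ^ j := by positivity
  have h7 : (((P : ℝ) / 16) ^ 4 ^ j * 2 ^ 4 ^ j) * (2 : ℝ) ^ 4 ^ j ≤
      (((P : ℝ) / 16) ^ 4 ^ j * 2 ^ 4 ^ j) * Fintype.card E := by
    calc _ = ((P : ℝ) / 16) ^ 4 ^ j * (2 ^ 4 ^ j * 2 ^ 4 ^ j) := by ring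
      _ ≤ 2 ^ 4 ^ j * (Fintype.card E * ((P : ℝ) / 16) ^ 4 ^ j) := h2
      _ = _ := by ring
  have h8 := le_of_mul_le_mul_left h7 (by positivity)
  exact_mod_cast h8

end Pool.Agent.L5helper60.DN2
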