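import Pool.Agent.L5helper60.DN.Exi

/-!
# Pseudo-rectangles: products of two functions which do not see one of two disjoint sets each

Extension of `Pool.Agent.L5helper60.DN.Low` from a set and its complement to two disjoint sets; the
other elements are seen by both factors.
-/

set_option autoImplicit false
set_option linter.unusedSectionVars false

open Finset

namespace Pool.Agent.L5helper60.DN2

open Pool.Agent.L5helper60.DN Pool.Agent.L5helper18.DD

variable {m : ℕ}

/-- the product `l` of the gadget is split by `A` and `B`: the places of one factor belong to `A`,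
those of the other one to `B` -/
def Gd2 {X : Type} (A B : Finset X) (τ : Sl m → X) (l : Fin m) : Prop :=
  ((∀ ρ, τ (.inl (l, false, ρ)) ∈ A) ∧ ∀ ρ, τ (.inl (l, true, ρ)) ∈ B) ∨
    ((∀ ρ, τ (.inl (l, false, ρ)) ∈ B) ∧ ∀ ρ, τ (.inl (l, true, ρ)) ∈ A)

open Classical in
/-- the weight of a tuple -/
noncomputable def wt2 {X : Type} (A B : Finset X) (τ : Sl m → X) : ℝ :=
  ∏ l, if Gd2 A B τ l then 5 / 7 else 1

theorem wt2_nonneg {X : Type} (A B : Finset X) (τ : Sl m → X) : 0 ≤ wt2 A B τ := by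
  refine Finset.prod_nonneg fun l _ => ?_
  split_ifs <;> norm_num

theorem wt2_le_one {X : Type} (A B : Finset X) (τ : Sl m → X) : wt2 A B τ ≤ 1 := by
  refine Finset.prod_le_one (fun l _ => ?_) fun l _ => ?_
  · split_ifs <;> norm_num
  · split_ifs <;> norm_num

section norm

variable {P : Type} [Fintype P] [DecidableEq P]

/-- bits from `α` outside `D` and from `α'` in `D` -/
def mx (D : Finset P) (α α' : P → Bool) : P → Bool := fun p => if p ∈ D then α' p else α p

theorem mx_self (D : Finset P) (α : P → Bool) : mx D α α = α := by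
  funext p
  unfold mx
  split_ifs <;> rfl

theorem mx_congr {D : Finset P} {α β : P → Bool} (h : ∀ p, p ∉ D → α p = β p) (γ : P → Bool) :
    mx D α γ = mx D β γ := by
  funext p
  unfold mx
  split_ifs with hp
  · rfl
  · exact h p hp

/-- the discrepancy bound for two nonnegative functions whose product is at most one -/
theorem disc_nn (D : Finset P) (ρ : P → Bool) (g h : (P → Bool) → (P → Bool) → ℝ)
    (hg0 : ∀ α β, 0 ≤ g α β) (hh0 : ∀ α β, 0 ≤ h α β) (hgh : ∀ α β, g α β * h α β ≤ 1)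
    (hg' : ∀ α β α' β', (∀ p, p ∉ D ∨ ρ p = false → α p = α' p) →
      (∀ p, p ∉ D ∨ ρ p = true → β p = β' p) → g α β = g α' β')
    (hh' : ∀ α β α' β', (∀ p, p ∉ D ∨ ρ p = true → α p = α' p) →
      (∀ p, p ∉ D ∨ ρ p = false → β p = β' p) → h α β = h α' β') :
    |∑ α, ∑ β, (∏ p, sg (α p && β p)) * (g α β * h α β)| ≤
      4 ^ Fintype.card P * (5 / 7) ^ D.card := by
  classical
  -- the maximum of `h` for given bits outside `D`
  have hmax : ∀ α β : P → Bool, ∃ q : (P → Bool) × (P → Bool), ∀ q' : (P → Bool) × (P → Bool),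
      h (mx D α q'.1) (mx D β q'.2) ≤ h (mx D α q.1) (mx D β q.2) := fun α β =>
    Finite.exists_max fun q : (P → Bool) × (P → Bool) => h (mx D α q.1) (mx D β q.2)
  choose q hq using hmax
  set H : (P → Bool) → (P → Bool) → ℝ := fun α β => h (mx D α (q α β).1) (mx D β (q α β).2) with hH
  have hHcongr : ∀ α β α' β', (∀ p, p ∉ D → α p = α' p) → (∀ p, p ∉ D → β p = β' p) →
      H α β = H α' β' := by
    intro α β α' β' h1 h2
    apply le_antisymm
    · have := hq α' β' (q α β)
      rw [← mx_congr h1, ← mx_congr h2] at this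
      exact this
    · have := hq α β (q α' β')
      rw [mx_congr h1, mx_congr h2] at this
      exact this
  have hle : ∀ α β, h α β ≤ H α β := by
    intro α β
    have := hq α β (α, β)
    rwa [mx_self, mx_self] at this
  have hH0 : ∀ α β, 0 ≤ H α β := fun α β => hh0 _ _
  have hgH : ∀ α β, g α β * H α β ≤ 1 := by
    intro α β
    set α' := mx D α (q α β).1 with hα'
    set β' := mx D β (q α β).2 with hβ'
    have o1 : ∀ p, p ∉ D → α' p = α p := fun p hp => by rw [hα']; unfold mx; rw [if_neg hp]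
    have o2 : ∀ p, p ∉ D → β' p = β p := fun p hp => by rw [hβ']; unfold mx; rw [if_neg hp]
    have e1 : g (fun p => if ρ p then α' p else α p) (fun p => if ρ p then β p else β' p) =
        g α β := by
      refine hg' _ _ _ _ (fun p hp => ?_) fun p hp => ?_
      · show (if ρ p then α' p else α p) = α p
        rcases hp with hp | hp
        · split_ifs
          · exact o1 p hp
          · rfl
        · rw [hp]; rfl
      · show (if ρ p then β p else β' p) = β p
        rcases hp with hp | hp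
        · split_ifs
          · rfl
          · exact o2 p hp
        · rw [hp]; rfl
    have e2 : h (fun p => if ρ p then α' p else α p) (fun p => if ρ p then β p else β' p) =
        h α' β' := by
      refine hh' _ _ _ _ (fun p hp => ?_) fun p hp => ?_
      · show (if ρ p then α' p else α p) = α' p
        rcases hp with hp | hp
        · split_ifs
          · rfl
          · exact (o1 p hp).symm
        · rw [hp]; rfl
      · show (if ρ p then β p else β' p) = β' p
        rcases hp with hp | hp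
        · split_ifs
          · exact (o2 p hp).symm
          · rfl
        · rw [hp]; rfl
    have := hgh (fun p => if ρ p then α' p else α p) (fun p => if ρ p then β p else β' p)
    rw [e1, e2] at this
    exact this
  have hsum : ∀ α β, g α β * h α β = (g α β * H α β) * (h α β / H α β) := by
    intro α β
    by_cases h0 : H α β = 0
    · have : h α β = 0 := le_antisymm (h0 ▸ hle α β) (hh0 _ _)
      rw [this]
      simp
    · field_simp
  have hrw : ∑ α, ∑ β, (∏ p, sg (α p && β p)) * (g α β * h α β) =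
      ∑ α, ∑ β, (∏ p, sg (α p && β p)) * ((g α β * H α β) * (h α β / H α β)) :=
    Finset.sum_congr rfl fun α _ => Finset.sum_congr rfl fun β _ => by rw [← hsum]
  rw [hrw]
  refine disc_or D ρ (fun α β => g α β * H α β) (fun α β => h α β / H α β) (fun α β => ?_)
    (fun α β => ?_) (fun α β α' β' h1 h2 => ?_) fun α β α' β' h1 h2 => ?_
  · rw [abs_of_nonneg (mul_nonneg (hg0 _ _) (hH0 _ _))]
    exact hgH α β
  · rw [abs_of_nonneg (div_nonneg (hh0 _ _) (hH0 _ _))]
    exact div_le_one_of_le₀ (hle α β) (hH0 α β)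
  · show g α β * H α β = g α' β' * H α' β'
    rw [hg' α β α' β' h1 h2, hHcongr α β α' β' (fun p hp => h1 p (Or.inl hp))
      fun p hp => h2 p (Or.inl hp)]
  · show h α β / H α β = h α' β' / H α' β'
    rw [hh' α β α' β' h1 h2, hHcongr α β α' β' (fun p hp => h1 p (Or.inl hp))
      fun p hp => h2 p (Or.inl hp)]

end norm

variable {L Q X : Type} [Fintype L] [DecidableEq L] [Fintype Q] [DecidableEq Q] [Fintype X]
  [DecidableEq X]

/-- what a function which does not see `B` knows about the bits -/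
theorem sel_congr (T : L → Q → Sl m → X) (c : L → Q) (w : L → Bool) (A B : Finset (X ⊕ L × Q))
    (f : Finset (X ⊕ L × Q) → ℝ) (hf : IndepOf f B) (D : Finset (L × Fin m)) (ρ : L × Fin m → Bool)
    (hD1 : ∀ p ∈ D, ρ p = false → ∀ ρ', T p.1 (c p.1) (.inl (p.2, true, ρ')) ∈ pX B)
    (hD2 : ∀ p ∈ D, ρ p = true → ∀ ρ', T p.1 (c p.1) (.inl (p.2, false, ρ')) ∈ pX B)
    (a b a' b' : L × Fin m → Bool) (ha : ∀ p, p ∉ D ∨ ρ p = false → a p = a' p)
    (hb : ∀ p, p ∉ D ∨ ρ p = true → b p = b' p) :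
    f (sel T c a b w) = f (sel T c a' b' w) := by
  refine hf _ _ ?_
  have key : ∀ (a b a' b' : L × Fin m → Bool), (∀ p, p ∉ D ∨ ρ p = false → a p = a' p) →
      (∀ p, p ∉ D ∨ ρ p = true → b p = b' p) →
      ∀ s, s ∉ B → s ∈ sel T c a b w → s ∈ sel T c a' b' w := by
    intro a b a' b' ha hb s hsB hs
    rcases s with x | ⟨i, q⟩
    · obtain ⟨i, σ, h1, h2⟩ := inl_mem_sel.1 hs
      refine inl_mem_sel.2 ⟨i, σ, ?_, h2⟩
      have hxB : T i (c i) σ ∉ pX B := by rw [h2]; exact fun h => hsB (mem_pX.1 h)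
      rcases σ with ⟨l, _ | _, ρ'⟩ | ρ'
      · show a' (i, l) = ρ'
        have h3 : a (i, l) = ρ' := h1
        rw [← h3]
        refine (ha (i, l) ?_).symm
        by_cases hp : (i, l) ∈ D
        · right
          by_contra h5
          exact hxB (hD2 (i, l) hp (by simpa using h5) ρ')
        · exact Or.inl hp
      · show b' (i, l) = ρ'
        have h3 : b (i, l) = ρ' := h1
        rw [← h3]
        refine (hb (i, l) ?_).symm
        by_cases hp : (i, l) ∈ D
        · right
          by_contra h5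
          exact hxB (hD1 (i, l) hp (by simpa using h5) ρ')
        · exact Or.inl hp
      · exact h1
    · exact inr_mem_sel.2 (inr_mem_sel.1 hs)
  intro s hs
  exact ⟨key a b a' b' ha hb s hs, key a' b' a b (fun p hp => (ha p hp).symm)
    (fun p hp => (hb p hp).symm) s hs⟩

theorem rect_bound2 (T : L → Q → Sl m → X) (c : L → Q) (A B : Finset (X ⊕ L × Q))
    (hd : Disjoint A B) (g h : Finset (X ⊕ L × Q) → ℝ) (hg : ∀ S, 0 ≤ g S) (hh : ∀ S, 0 ≤ h S)
    (hgB : IndepOf g B) (hhA : IndepOf h A) (hgh : ∀ S, g S * h S ≤ 1) :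
    |lam T c fun S => g S * h S| ≤
      2 ^ Fintype.card L * (4 ^ Fintype.card (L × Fin m) *
        ∏ i, wt2 (pX A) (pX B) (T i (c i))) := by
  classical
  unfold lam
  set D : Finset (L × Fin m) := univ.filter fun p => Gd2 (pX A) (pX B) (T p.1 (c p.1)) p.2 with hD
  have hwt : ∏ i, wt2 (pX A) (pX B) (T i (c i)) = (5 / 7 : ℝ) ^ D.card := by
    have h1 : ∏ i, wt2 (pX A) (pX B) (T i (c i)) =
        ∏ p : L × Fin m, if p ∈ D then (5 / 7 : ℝ) else 1 := by
      rw [Fintype.prod_prod_type]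
      refine Finset.prod_congr rfl fun i _ => ?_
      unfold wt2
      refine Finset.prod_congr rfl fun l _ => ?_
      by_cases hp : Gd2 (pX A) (pX B) (T i (c i)) l
      · rw [if_pos hp, if_pos (by rw [hD]; exact mem_filter.2 ⟨mem_univ _, hp⟩)]
      · rw [if_neg hp, if_neg (by rw [hD]; exact fun h => hp (mem_filter.1 h).2)]
    rw [h1, prod_ite_pow D (5 / 7) 1 one_ne_zero]
    simp
  have hAB : ∀ x, x ∈ pX A → x ∈ pX B → False := fun x h1 h2 =>
    disjoint_left.1 hd (mem_pX.1 h1) (mem_pX.1 h2)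
  -- the orientation: `false` if the places of `a` are in `A`
  set ρ : L × Fin m → Bool := fun p =>
    !(decide (∀ ρ', T p.1 (c p.1) (.inl (p.2, false, ρ')) ∈ pX A)) with hρ
  have r1 : ∀ p ∈ D, ρ p = false → (∀ ρ', T p.1 (c p.1) (.inl (p.2, false, ρ')) ∈ pX A) ∧
      ∀ ρ', T p.1 (c p.1) (.inl (p.2, true, ρ')) ∈ pX B := by
    intro p hp h1
    have h2 : ∀ ρ', T p.1 (c p.1) (.inl (p.2, false, ρ')) ∈ pX A := by
      simpa [hρ] using h1
    rcases (mem_filter.1 hp).2 with h3 | h3
    · exact h3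
    · exact absurd (h3.1 true) fun h4 => hAB _ (h2 true) h4
  have r2 : ∀ p ∈ D, ρ p = true → (∀ ρ', T p.1 (c p.1) (.inl (p.2, false, ρ')) ∈ pX B) ∧
      ∀ ρ', T p.1 (c p.1) (.inl (p.2, true, ρ')) ∈ pX A := by
    intro p hp h1
    have h2 : ¬∀ ρ', T p.1 (c p.1) (.inl (p.2, false, ρ')) ∈ pX A := by
      intro h3
      have : ρ p = false := by rw [hρ]; simp [h3]
      rw [this] at h1
      exact absurd h1 (by decide)
    rcases (mem_filter.1 hp).2 with h3 | h3
    · exact absurd h3.1 h2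
    · exact h3
  have hw : ∀ w : L → Bool, |∑ a : L × Fin m → Bool, ∑ b : L × Fin m → Bool,
      (∏ p, sg (a p && b p)) * (g (sel T c a b w) * h (sel T c a b w))| ≤
      4 ^ Fintype.card (L × Fin m) * (5 / 7) ^ D.card := by
    intro w
    refine disc_nn D ρ (fun a b => g (sel T c a b w)) (fun a b => h (sel T c a b w))
      (fun _ _ => hg _) (fun _ _ => hh _) (fun _ _ => hgh _) ?_ ?_
    · intro a b a' b' ha hb
      exact sel_congr T c w A B g hgB D ρ (fun p hp h1 => (r1 p hp h1).2)
        (fun p hp h1 => (r2 p hp h1).1) a b a' b' ha hb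
    · intro a b a' b' ha hb
      exact sel_congr T c w B A h hhA D (fun p => !(ρ p))
        (fun p hp h1 => (r2 p hp (by simpa using h1)).2)
        (fun p hp h1 => (r1 p hp (by simpa using h1)).1) a b a' b'
        (fun p hp => ha p (hp.imp_right fun h => by simpa using h))
        (fun p hp => hb p (hp.imp_right fun h => by simpa using h))
  have h2 : ∀ w : L → Bool, |∑ a : L × Fin m → Bool, ∑ b : L × Fin m → Bool,
      (∏ p, sg (a p && b p)) * ((∏ i, sg (w i)) * (g (sel T c a b w) * h (sel T c a b w)))| ≤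
      4 ^ Fintype.card (L × Fin m) * (5 / 7) ^ D.card := by
    intro w
    have h3 : ∑ a : L × Fin m → Bool, ∑ b : L × Fin m → Bool,
        (∏ p, sg (a p && b p)) * ((∏ i, sg (w i)) * (g (sel T c a b w) * h (sel T c a b w))) =
        (∏ i, sg (w i)) * ∑ a : L × Fin m → Bool, ∑ b : L × Fin m → Bool,
          (∏ p, sg (a p && b p)) * (g (sel T c a b w) * h (sel T c a b w)) := by
      rw [Finset.mul_sum]
      refine Finset.sum_congr rfl fun a _ => ?_
      rw [Finset.mul_sum]
      refine Finset.sum_congr rfl fun b _ => ?_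
      ring
    rw [h3, abs_mul, prod_le_one_abs _ fun i => abs_sg _, one_mul]
    exact hw w
  rw [hwt]
  calc _ ≤ ∑ _w : L → Bool, 4 ^ Fintype.card (L × Fin m) * (5 / 7 : ℝ) ^ D.card :=
        (Finset.abs_sum_le_sum_abs _ _).trans (Finset.sum_le_sum fun w _ => h2 w)
    _ = _ := by
        rw [Finset.sum_const, card_univ, Fintype.card_fun, Fintype.card_bool]
        simp

theorem one_le2 (T : L → Q → Sl m → X) {E : Type} [Fintype E]
    (A B : E → Finset (X ⊕ L × Q)) (hd : ∀ e, Disjoint (A e) (B e))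
    (g h : E → Finset (X ⊕ L × Q) → ℝ)
    (h2 : ∀ e S, 0 ≤ g e S) (h3 : ∀ e S, 0 ≤ h e S) (h4 : ∀ e, IndepOf (g e) (B e))
    (h5 : ∀ e, IndepOf (h e) (A e)) (f : Finset (X ⊕ L × Q) → ℝ) (hf : ∀ S, f S ≤ 1)
    (h6 : ∀ S, f S = ∑ e, g e S * h e S) (c : L → Q)
    (hc : |lam T c f| = 4 ^ Fintype.card (L × Fin m)) :
    (1 : ℝ) ≤ 2 ^ Fintype.card L * ∑ e, ∏ i, wt2 (pX (A e)) (pX (B e)) (T i (c i)) := by
  have hgh : ∀ e S, g e S * h e S ≤ 1 := by
    intro e S
    have h7 : g e S * h e S ≤ ∑ e, g e S * h e S :=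
      Finset.single_le_sum (f := fun e => g e S * h e S)
        (fun e _ => mul_nonneg (h2 e S) (h3 e S)) (mem_univ e)
    refine h7.trans ?_
    rw [← h6]
    exact hf S
  have h8 : lam T c f = ∑ e, lam T c fun S => g e S * h e S := by
    rw [← lam_sum T c fun e S => g e S * h e S]
    congr 1
    funext S
    exact h6 S
  have h12 : (0 : ℝ) < 4 ^ Fintype.card (L × Fin m) := by positivity
  have h9 : (4 : ℝ) ^ Fintype.card (L × Fin m) ≤ 4 ^ Fintype.card (L × Fin m) *
        (2 ^ Fintype.card L * ∑ e, ∏ i, wt2 (pX (A e)) (pX (B e)) (T i (c i))) := by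
    calc (4 : ℝ) ^ Fintype.card (L × Fin m) = |lam T c f| := hc.symm
      _ = |∑ e, lam T c fun S => g e S * h e S| := by rw [h8]
      _ ≤ ∑ e, |lam T c fun S => g e S * h e S| := Finset.abs_sum_le_sum_abs _ _
      _ ≤ ∑ e, 2 ^ Fintype.card L * (4 ^ Fintype.card (L × Fin m) *
          ∏ i, wt2 (pX (A e)) (pX (B e)) (T i (c i))) := Finset.sum_le_sum fun e _ =>
          rect_bound2 T c (A e) (B e) (hd e) (g e) (h e) (h2 e) (h3 e) (h4 e) (h5 e) (hgh e)
      _ = _ := by
          rw [Finset.mul_sum, Finset.mul_sum]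
          exact Finset.sum_congr rfl fun e _ => by ring
  exact (le_mul_iff_one_le_right h12).1 h9

open Classical in
theorem sum_inj_le2 (T : L → Q → Sl m → X) (A B : Finset X) :
    ∑ c ∈ univ.filter (fun c : L → Q => Inj T c), ∏ i, wt2 A B (T i (c i)) ≤
      ∏ i, ∑ q, wt2 A B (T i q) := by
  rw [← sum_prod_pi (fun i q => wt2 A B (T i q))]
  exact Finset.sum_le_sum_of_subset_of_nonneg (filter_subset _ _) fun c _ _ =>
    Finset.prod_nonneg fun i _ => wt2_nonneg _ _ _

/-- **the lower bound for one design and one decomposition into pseudo-rectangles** -/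
theorem count2 (T : L → Q → Sl m → X) (M : ℝ) {E : Type} [Fintype E]
    (A B : E → Finset (X ⊕ L × Q)) (hd : ∀ e, Disjoint (A e) (B e))
    (g h : E → Finset (X ⊕ L × Q) → ℝ)
    (h2 : ∀ e S, 0 ≤ g e S) (h3 : ∀ e S, 0 ≤ h e S) (h4 : ∀ e, IndepOf (g e) (B e))
    (h5 : ∀ e, IndepOf (h e) (A e))
    (hM : ∀ e, ∏ i, ∑ q, wt2 (pX (A e)) (pX (B e)) (T i q) ≤ M)
    (f : Finset (X ⊕ L × Q) → ℝ) (hf : ∀ S, f S ≤ 1)
    (h6 : ∀ S, f S = ∑ e, g e S * h e S)
    (hlam : ∀ c, Inj T c → |lam T c f| = 4 ^ Fintype.card (L × Fin m)) :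
    (nInj T : ℝ) ≤ 2 ^ Fintype.card L * (Fintype.card E * M) := by
  classical
  have hone : ∀ c : L → Q, Inj T c → (1 : ℝ) ≤
      2 ^ Fintype.card L * ∑ e, ∏ i, wt2 (pX (A e)) (pX (B e)) (T i (c i)) := fun c hc =>
    one_le2 T A B hd g h h2 h3 h4 h5 f hf h6 c (hlam c hc)
  have s1 : (nInj T : ℝ) = ∑ _c ∈ univ.filter (fun c : L → Q => Inj T c), (1 : ℝ) := by
    rw [Finset.sum_const, nsmul_eq_mul, mul_one]
    rfl
  have s2 : ∑ _c ∈ univ.filter (fun c : L → Q => Inj T c), (1 : ℝ) ≤
      ∑ c ∈ univ.filter (fun c : L → Q => Inj T c),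
        2 ^ Fintype.card L * ∑ e, ∏ i, wt2 (pX (A e)) (pX (B e)) (T i (c i)) :=
    Finset.sum_le_sum fun c hc => hone c (mem_filter.1 hc).2
  have s3 : ∑ c ∈ univ.filter (fun c : L → Q => Inj T c),
        2 ^ Fintype.card L * ∑ e, ∏ i, wt2 (pX (A e)) (pX (B e)) (T i (c i)) =
      2 ^ Fintype.card L * ∑ e, ∑ c ∈ univ.filter (fun c : L → Q => Inj T c),
          ∏ i, wt2 (pX (A e)) (pX (B e)) (T i (c i)) := by
    rw [← Finset.mul_sum, Finset.sum_comm]
  have s4 : ∑ e, ∑ c ∈ univ.filter (fun c : L → Q => Inj T c),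
        ∏ i, wt2 (pX (A e)) (pX (B e)) (T i (c i)) ≤ ∑ _e : E, M :=
    Finset.sum_le_sum fun e _ => (sum_inj_le2 T (pX (A e)) (pX (B e))).trans (hM e)
  have s5 : ∑ _e : E, M = Fintype.card E * M := by
    rw [Finset.sum_const, card_univ, nsmul_eq_mul]
  rw [s1]
  refine s2.trans ?_
  rw [s3, ← s5]
  exact mul_le_mul_of_nonneg_left s4 (by positivity)

end Pool.Agent.L5helper60.DN2
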