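import Pool.Agent.L5helper60.DN.Exi

/-!
# A split of the blocks into two classes which leaves two disjoint dense sets unseen
-/

set_option autoImplicit false
set_option linter.unusedSectionVars false

open Finset

namespace Pool.Agent.L5helper60.DN2

open Pool.Agent.L5helper60.DN

section chi

variable {r : ℕ}

/-- the normed indicator function of the sets which contain `T` -/
noncomputable def chi (T : Finset (Fin r)) (I : Fin r → Bool) : ℝ :=
  ∏ t, if t ∈ T then (if I t then 2 else 0) else 1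

theorem chi_nonneg (T : Finset (Fin r)) (I : Fin r → Bool) : 0 ≤ chi T I := by
  unfold chi
  refine Finset.prod_nonneg fun t _ => ?_
  split_ifs <;> norm_num

theorem chi_le (T : Finset (Fin r)) (I : Fin r → Bool) : chi T I ≤ 2 ^ T.card := by
  unfold chi
  calc (∏ t, if t ∈ T then (if I t then (2 : ℝ) else 0) else 1)
      ≤ ∏ t, if t ∈ T then (2 : ℝ) else 1 := Finset.prod_le_prod
        (fun t _ => by split_ifs <;> norm_num) (fun t _ => by split_ifs <;> norm_num)
    _ = 2 ^ T.card := by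
        rw [prod_ite_pow T 2 1 one_ne_zero]
        simp

theorem chi_ne {T : Finset (Fin r)} {I : Fin r → Bool} (h : chi T I ≠ 0) :
    ∀ t ∈ T, I t = true := by
  intro t ht
  by_contra hc
  apply h
  unfold chi
  exact Finset.prod_eq_zero (mem_univ t) (by rw [if_pos ht, if_neg hc])

theorem sum_chi (T : Finset (Fin r)) : ∑ I, chi T I = 2 ^ r := by
  unfold chi
  rw [sum_prod_pi (fun t (b : Bool) => if t ∈ T then (if b then (2 : ℝ) else 0) else 1)]
  have h : ∀ t : Fin r, ∑ b : Bool, (if t ∈ T then (if b then (2 : ℝ) else 0) else 1) = 2 := by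
    intro t
    rw [Fintype.sum_bool]
    by_cases h1 : t ∈ T
    · simp [h1]
    · simp [h1]; norm_num
  rw [Finset.prod_congr rfl fun t _ => h t, Finset.prod_const, card_univ, Fintype.card_fin]

theorem sum_chi_mul (T T' : Finset (Fin r)) :
    ∑ I, chi T I * chi T' I = 2 ^ r * 2 ^ (T ∩ T').card := by
  have h0 : ∀ I, chi T I * chi T' I = ∏ t, (if t ∈ T then (if I t then (2 : ℝ) else 0) else 1) *
      (if t ∈ T' then (if I t then (2 : ℝ) else 0) else 1) := by
    intro I
    unfold chi
    rw [Finset.prod_mul_distrib]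
  rw [Finset.sum_congr rfl fun I _ => h0 I,
    sum_prod_pi (fun t (b : Bool) => (if t ∈ T then (if b then (2 : ℝ) else 0) else 1) *
      (if t ∈ T' then (if b then (2 : ℝ) else 0) else 1))]
  have h : ∀ t : Fin r, ∑ b : Bool, ((if t ∈ T then (if b then (2 : ℝ) else 0) else 1) *
      (if t ∈ T' then (if b then (2 : ℝ) else 0) else 1)) =
      2 * (if t ∈ T ∩ T' then 2 else 1) := by
    intro t
    rw [Fintype.sum_bool]
    by_cases h1 : t ∈ T <;> by_cases h2 : t ∈ T' <;> simp [h1, h2] <;> norm_num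
  rw [Finset.prod_congr rfl fun t _ => h t, Finset.prod_mul_distrib, Finset.prod_const, card_univ,
    Fintype.card_fin, prod_ite_pow (T ∩ T') 2 1 one_ne_zero]
  simp

end chi

section spl

variable {V : Type} [DecidableEq V]

/-- the number of the sets `Y t` which contain `v`, as a set -/
def bl {r : ℕ} (Y : Fin r → Finset V) (v : V) : Finset (Fin r) := univ.filter fun t => v ∈ Y t

theorem mem_bl {r : ℕ} {Y : Fin r → Finset V} {v : V} {t : Fin r} : t ∈ bl Y v ↔ v ∈ Y t := by
  unfold bl
  simp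

theorem pow_le_lin (k c : ℕ) (h : c ≤ k) : (2 : ℝ) ^ c ≤ 1 + 2 ^ k * c := by
  rcases Nat.eq_zero_or_pos c with rfl | hc
  · simp
  · have h1 : (2 : ℝ) ^ c ≤ 2 ^ k := pow_le_pow_right₀ (by norm_num) h
    have h2 : (1 : ℝ) ≤ c := by exact_mod_cast hc
    have h3 : (0 : ℝ) < 2 ^ k := by positivity
    nlinarith

theorem second_moment (k r θ : ℕ) (D : Finset V) (Y : Fin r → Finset V)
    (hY : ∀ t, (Y t).card ≤ θ) (hc : ∀ v, (bl Y v).card ≤ k) :
    ∑ I : Fin r → Bool, (∑ v ∈ D, chi (bl Y v) I - D.card) ^ 2 ≤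
      2 ^ r * (2 ^ k * (D.card * (k * θ))) := by
  have h1 : ∑ I : Fin r → Bool, ∑ v ∈ D, chi (bl Y v) I = 2 ^ r * D.card := by
    rw [Finset.sum_comm, Finset.sum_congr rfl fun v _ => sum_chi (bl Y v), Finset.sum_const,
      nsmul_eq_mul, mul_comm]
  have hin : ∀ v, ∑ w ∈ D, ((bl Y v ∩ bl Y w).card : ℝ) ≤ k * θ := by
    intro v
    have e1 : ∀ w, ((bl Y v ∩ bl Y w).card : ℝ) =
        ∑ t ∈ bl Y v, if w ∈ Y t then (1 : ℝ) else 0 := by
      intro w
      have e2 : bl Y v ∩ bl Y w = (bl Y v).filter fun t => w ∈ Y t := by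
        ext t
        simp only [mem_inter, mem_filter, mem_bl]
      rw [e2, Finset.card_filter]
      push_cast
      rfl
    rw [Finset.sum_congr rfl fun w _ => e1 w, Finset.sum_comm]
    calc ∑ t ∈ bl Y v, ∑ w ∈ D, (if w ∈ Y t then (1 : ℝ) else 0)
        ≤ ∑ _t ∈ bl Y v, (θ : ℝ) := by
          refine Finset.sum_le_sum fun t _ => ?_
          rw [← Finset.sum_filter, Finset.sum_const, nsmul_eq_mul, mul_one]
          have : (D.filter fun w => w ∈ Y t).card ≤ θ :=
            (card_le_card fun w hw => (mem_filter.1 hw).2).trans (hY t)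
          exact_mod_cast this
      _ = (bl Y v).card * θ := by rw [Finset.sum_const, nsmul_eq_mul]
      _ ≤ k * θ := by
          refine mul_le_mul_of_nonneg_right ?_ (by positivity)
          exact_mod_cast hc v
  have h2 : ∑ I : Fin r → Bool, (∑ v ∈ D, chi (bl Y v) I) ^ 2 ≤
      2 ^ r * (D.card ^ 2 + 2 ^ k * (D.card * (k * θ))) := by
    have e1 : ∀ I : Fin r → Bool, (∑ v ∈ D, chi (bl Y v) I) ^ 2 =
        ∑ v ∈ D, ∑ w ∈ D, chi (bl Y v) I * chi (bl Y w) I := by
      intro I
      rw [sq, Finset.sum_mul_sum]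
    rw [Finset.sum_congr rfl fun I _ => e1 I, Finset.sum_comm]
    have e2 : ∀ v, ∑ I : Fin r → Bool, ∑ w ∈ D, chi (bl Y v) I * chi (bl Y w) I =
        2 ^ r * ∑ w ∈ D, (2 : ℝ) ^ (bl Y v ∩ bl Y w).card := by
      intro v
      rw [Finset.sum_comm, Finset.mul_sum]
      exact Finset.sum_congr rfl fun w _ => sum_chi_mul _ _
    rw [Finset.sum_congr rfl fun v _ => e2 v, ← Finset.mul_sum]
    refine mul_le_mul_of_nonneg_left ?_ (by positivity)
    calc ∑ v ∈ D, ∑ w ∈ D, (2 : ℝ) ^ (bl Y v ∩ bl Y w).card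
        ≤ ∑ v ∈ D, ∑ w ∈ D, (1 + 2 ^ k * ((bl Y v ∩ bl Y w).card : ℝ)) :=
          Finset.sum_le_sum fun v _ => Finset.sum_le_sum fun w _ =>
            pow_le_lin k _ ((card_le_card inter_subset_left).trans (hc v))
      _ ≤ ∑ _v ∈ D, ((D.card : ℝ) + 2 ^ k * (k * θ)) := by
          refine Finset.sum_le_sum fun v _ => ?_
          rw [Finset.sum_add_distrib, Finset.sum_const, nsmul_eq_mul, mul_one, ← Finset.mul_sum]
          have := mul_le_mul_of_nonneg_left (hin v) (by positivity : (0 : ℝ) ≤ 2 ^ k)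
          linarith
      _ = _ := by
          rw [Finset.sum_const, nsmul_eq_mul]
          ring
  have h3 : ∀ I : Fin r → Bool, (∑ v ∈ D, chi (bl Y v) I - D.card) ^ 2 =
      (∑ v ∈ D, chi (bl Y v) I) ^ 2 - 2 * D.card * (∑ v ∈ D, chi (bl Y v) I) + D.card ^ 2 := by
    intro I
    ring
  rw [Finset.sum_congr rfl fun I _ => h3 I, Finset.sum_add_distrib, Finset.sum_sub_distrib,
    ← Finset.mul_sum, h1, Finset.sum_const, card_univ, Fintype.card_fun, Fintype.card_bool,
    Fintype.card_fin, nsmul_eq_mul]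
  push_cast
  nlinarith [h2]

/-- **The split**: if every vertex belongs to at most `k` of the small sets `Y t`, then the indices can be
split into two classes such that there are two disjoint dense sets of vertices, those of the first one
only in sets of the first class and those of the second one only in sets of the second class. -/
theorem split_exists (k r θ : ℕ) (D : Finset V) (Y : Fin r → Finset V)
    (hY : ∀ t, (Y t).card ≤ θ) (hc : ∀ v, (univ.filter fun t => v ∈ Y t).card ≤ k)
    (hθ : 8 * 2 ^ k * k * θ ≤ D.card) (hD : 2 ^ (k + 2) ≤ D.card) :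
    ∃ (I : Fin r → Bool) (A B : Finset V), A ⊆ D ∧ B ⊆ D ∧ Disjoint A B ∧
      D.card ≤ 2 ^ (k + 3) * A.card ∧ D.card ≤ 2 ^ (k + 3) * B.card ∧
      (∀ v ∈ A, ∀ t, v ∈ Y t → I t = true) ∧ (∀ v ∈ B, ∀ t, v ∈ Y t → I t = false) := by
  classical
  have hc' : ∀ v, (bl Y v).card ≤ k := hc
  have hn : 0 < D.card := lt_of_lt_of_le (by positivity) hD
  have hn' : (0 : ℝ) < D.card := by exact_mod_cast hn
  set x : (Fin r → Bool) → ℝ := fun I => ∑ v ∈ D, chi (bl Y v) I with hx
  have hmom : ∑ I, (x I - D.card) ^ 2 ≤ 2 ^ r * (2 ^ k * (D.card * (k * θ))) :=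
    second_moment k r θ D Y hY hc'
  have hmom' : ∑ I : Fin r → Bool, (x (fun t => !(I t)) - D.card) ^ 2 ≤
      2 ^ r * (2 ^ k * (D.card * (k * θ))) := by
    have e1 : ∑ I : Fin r → Bool, (x (fun t => !(I t)) - D.card) ^ 2 =
        ∑ I, (x I - D.card) ^ 2 := by
      let e : (Fin r → Bool) ≃ (Fin r → Bool) :=
        { toFun := fun I t => !(I t)
          invFun := fun I t => !(I t)
          left_inv := fun I => by funext t; simp
          right_inv := fun I => by funext t; simp }
      exact Fintype.sum_equiv e _ _ fun I => rfl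
    rw [e1]
    exact hmom
  -- a good choice
  obtain ⟨I, hI1, hI2⟩ : ∃ I : Fin r → Bool, (D.card : ℝ) / 2 ≤ x I ∧
      (D.card : ℝ) / 2 ≤ x fun t => !(I t) := by
    by_contra hcon
    push Not at hcon
    have h1 : ∀ I : Fin r → Bool, (D.card : ℝ) ^ 2 / 4 <
        (x I - D.card) ^ 2 + (x (fun t => !(I t)) - D.card) ^ 2 := by
      intro I
      by_cases h2 : (D.card : ℝ) / 2 ≤ x I
      · have h3 := hcon I h2
        nlinarith [sq_nonneg (x I - D.card)]
      · push Not at h2
        nlinarith [sq_nonneg ((x fun t => !(I t)) - D.card)]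
    have h2 : ∑ _I : Fin r → Bool, (D.card : ℝ) ^ 2 / 4 <
        ∑ I : Fin r → Bool, ((x I - D.card) ^ 2 + (x (fun t => !(I t)) - D.card) ^ 2) :=
      Finset.sum_lt_sum_of_nonempty univ_nonempty fun I _ => h1 I
    rw [Finset.sum_add_distrib, Finset.sum_const, card_univ, Fintype.card_fun, Fintype.card_bool,
      Fintype.card_fin, nsmul_eq_mul] at h2
    push_cast at h2
    have h3 : (8 : ℝ) * 2 ^ k * k * θ ≤ D.card := by exact_mod_cast hθ
    have h4 : (0 : ℝ) < 2 ^ r := by positivity
    have h5 : (2 : ℝ) ^ k * (D.card * (k * θ)) ≤ D.card ^ 2 / 8 := by nlinarith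
    have h6 := mul_le_mul_of_nonneg_left h5 h4.le
    nlinarith
  have hcard : ∀ J : Fin r → Bool, (D.card : ℝ) / 2 ≤ x J →
      D.card ≤ 2 ^ (k + 1) * (D.filter fun v => ∀ t, v ∈ Y t → J t = true).card := by
    intro J hJ
    have h1 : x J ≤ ∑ v ∈ D, if (∀ t, v ∈ Y t → J t = true) then (2 : ℝ) ^ k else 0 := by
      refine Finset.sum_le_sum fun v _ => ?_
      split_ifs with h
      · exact (chi_le _ _).trans (pow_le_pow_right₀ (by norm_num) (hc' v))
      · refine le_of_eq ?_
        by_contra hne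
        exact h fun t ht => chi_ne hne t (mem_bl.2 ht)
    rw [← Finset.sum_filter, Finset.sum_const, nsmul_eq_mul] at h1
    have h2 : (D.card : ℝ) ≤
        2 ^ (k + 1) * ((D.filter fun v => ∀ t, v ∈ Y t → J t = true).card : ℝ) := by
      rw [pow_succ]
      linarith
    exact_mod_cast h2
  have hA := hcard I hI1
  have hB := hcard (fun t => !(I t)) hI2
  set A0 := D.filter fun v => ∀ t, v ∈ Y t → I t = true with hA0
  set B0 := D.filter fun v => ∀ t, v ∈ Y t → (!(I t)) = true with hB0
  set c := min A0.card B0.card with hcdef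
  have hcD : D.card ≤ 2 ^ (k + 1) * c := by
    rcases le_total A0.card B0.card with h | h
    · rw [hcdef, min_eq_left h]; exact hA
    · rw [hcdef, min_eq_right h]; exact hB
  have hc2 : 2 ≤ c := by
    by_contra hlt
    have h1 : 2 ^ (k + 1) * c ≤ 2 ^ (k + 1) * 1 := Nat.mul_le_mul_left _ (by omega)
    have h2 : 2 ^ (k + 2) = 2 ^ (k + 1) * 2 := pow_succ _ _
    have h3 : 0 < 2 ^ (k + 1) := by positivity
    omega
  obtain ⟨A, hA1, hA2⟩ := Finset.exists_subset_card_eq
    (show c / 2 ≤ A0.card from (Nat.div_le_self c 2).trans (min_le_left _ _))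
  have hBc : c - c / 2 ≤ (B0 \ A).card := by
    have h1 := Finset.le_card_sdiff A B0
    have h2 : c ≤ B0.card := min_le_right _ _
    omega
  have hp : 2 ^ (k + 3) = 2 ^ (k + 1) * 4 := by rw [pow_succ, pow_succ]; ring
  refine ⟨I, A, B0 \ A, hA1.trans (filter_subset _ _), sdiff_subset.trans (filter_subset _ _),
    disjoint_sdiff, ?_, ?_, fun v hv => (mem_filter.1 (hA1 hv)).2, fun v hv t ht => ?_⟩
  · rw [hA2, hp, mul_assoc]
    exact hcD.trans (Nat.mul_le_mul_left _ (by omega))
  · rw [hp, mul_assoc]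
    exact hcD.trans (Nat.mul_le_mul_left _ (by omega))
  · have := (mem_filter.1 (mem_sdiff.1 hv).1).2 t ht
    simpa using this

end spl

end Pool.Agent.L5helper60.DN2
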